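import Pool.Agent.H4.Sig3
import Pool.Agent.H11.GDefs

set_option autoImplicit false

namespace Pool.Agent.Results.MP_21485e_lc.Hard

open Finset Pool.Agent.H11.PT Pool.Agent.H4.Sig

/-- a schedule: for each phase the presence bits of the edges and the duration in binary -/
abbrev Sched := List (List Bool × List Bool)

/-- presence of edge `e` at time `τ`; after the end of the schedule all edges are present -/
def pres : Sched → ℕ → ℕ → Bool
  | [], _, _ => true
  | g :: r, e, τ => if τ < bin g.2 then g.1.getD e false else pres r e (τ - bin g.2)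

/-- `(n, s, t, schedule)`: star with centre `0` and leaves `1, …, n`, edge `e < n` joining `0` and
`e + 1`; start vertex `s`; deadline `t` in binary -/
abbrev Inst := ℕ × ℕ × List Bool × Sched

/-- `s` is a vertex, the deadline lies within the schedule, and the `B_Δ` condition holds -/
def Valid (Δ : ℕ) (y : Inst) : Prop :=
  y.2.1 ≤ y.1 ∧ bin y.2.2.1 ≤ (y.2.2.2.map fun g => bin g.2).sum ∧
    ∀ e < y.1, ∀ τ, ∃ τ', τ ≤ τ' ∧ τ' < τ + Δ ∧ pres y.2.2.2 e τ' = true

/-- the agent can visit every vertex by time `t` -/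
def Cover (y : Inst) : Prop :=
  ∃ pos : ℕ → ℕ, pos 0 = y.2.1 ∧
    (∀ τ, pos (τ + 1) = pos τ ∨ ∃ e < y.1, pres y.2.2.2 e τ = true ∧
      ((pos τ = 0 ∧ pos (τ + 1) = e + 1) ∨ (pos τ = e + 1 ∧ pos (τ + 1) = 0))) ∧
    ∀ v ≤ y.1, ∃ τ ≤ bin y.2.2.1, pos τ = v

abbrev F := List (ℕ × ℕ × ℕ)

def cK (φ : F) : ℕ := 3 * nv φ + 4
def cS (φ : F) : ℕ := cK φ + 2 * (φ.length * cK φ)
def cB (φ : F) : ℕ := 2 * cS φ + 1
def vars (φ : F) (s : ℕ) : List ℕ :=
  [(φ.getD ((s / cK φ - 1) % φ.length) (0, 0, 0)).1,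
    (φ.getD ((s / cK φ - 1) % φ.length) (0, 0, 0)).2.1,
    (φ.getD ((s / cK φ - 1) % φ.length) (0, 0, 0)).2.2]
def gen (φ : F) (b s i : ℕ) : ℕ :=
  if s < cK φ then (if i = b then 2 * s else 0) else if i ∈ vars φ s then
    (if s < cK φ + φ.length * cK φ then 2 * s + 1 else 2 * s) else 0
def av (φ : F) (b s i u : ℕ) : Bool :=
  decide (u = 0 ∨ (¬b = 0 ∧ cK φ ≤ s) ∨ (u ≤ gen φ b s i ∧ u % 2 = gen φ b s i % 2) ∨
    (gen φ b s i < u ∧ ¬u % 2 = gen φ b s i % 2))
def pr (φ : F) (e τ : ℕ) : Bool := av φ (e / cS φ) (e % cS φ) (τ / cB φ) (τ % cB φ)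

def red (φ : F) : Inst :=
  ((nv φ + 1) * cS φ, 0, toBits ((nv φ + 1) * cB φ - 2),
    (List.range ((nv φ + 1) * cB φ)).map fun τ =>
      ((List.range ((nv φ + 1) * cS φ)).map fun e => pr φ e τ, [true]))

theorem pt_red : PT red := by
  have h0 : PT nv := by unfold nv; fun_prop
  have h1 : PT cK := by unfold cK; fun_prop
  have h2 : PT cS := by unfold cS; fun_prop
  have h3 : PT cB := by unfold cB; fun_prop
  have h4 : PT fun p : F × ℕ => vars p.1 p.2 := by unfold vars; fun_prop
  have h5 : PT fun p : F × ℕ × ℕ × ℕ => gen p.1 p.2.1 p.2.2.1 p.2.2.2 := by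
    have : PT fun p : F × ℕ × ℕ × ℕ => vars p.1 p.2.2.1 :=
      h4.comp (g := fun p : F × ℕ × ℕ × ℕ => (p.1, p.2.2.1)) (by fun_prop)
    unfold gen; fun_prop
  have h6 : PT fun p : F × ℕ × ℕ × ℕ × ℕ => av p.1 p.2.1 p.2.2.1 p.2.2.2.1 p.2.2.2.2 := by
    have : PT fun p : F × ℕ × ℕ × ℕ × ℕ => gen p.1 p.2.1 p.2.2.1 p.2.2.2.1 :=
      h5.comp (g := fun p : F × ℕ × ℕ × ℕ × ℕ => (p.1, p.2.1, p.2.2.1, p.2.2.2.1)) (by fun_prop)
    unfold av; fun_prop
  have h7 : PT fun p : (F × ℕ) × ℕ => pr p.1.1 p.2 p.1.2 :=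
    h6.comp (g := fun p : (F × ℕ) × ℕ => (p.1.1, p.2 / cS p.1.1, p.2 % cS p.1.1,
      p.1.2 / cB p.1.1, p.1.2 % cB p.1.1)) (by fun_prop)
  exact PT.pair (by fun_prop) (PT.pair (PT.const _) (PT.pair (PT.toBits (by fun_prop))
    (PT.map (by fun_prop) (PT.pair (PT.map (by fun_prop) h7) (PT.const _)))))

theorem pres_map (f : ℕ → List Bool) (e : ℕ) : ∀ T a τ,
    pres ((List.range' a T).map fun τ => (f τ, [true])) e τ =
      if τ < T then (f (a + τ)).getD e false else true := by
  intro T
  induction T with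
  | zero => intro a τ; simp [pres]
  | succ T ih =>
    intro a τ
    rw [List.range'_succ, List.map_cons, pres, ih, show bin [true] = 1 from rfl]
    rcases τ with _ | τ
    · simp
    · simp [add_assoc, add_comm 1 τ]

theorem pres_red (φ : F) {e : ℕ} (he : e < (nv φ + 1) * cS φ) (τ : ℕ) :
    pres (red φ).2.2.2 e τ = if τ < (nv φ + 1) * cB φ then pr φ e τ else true := by
  simp only [red, List.range_eq_range']
  rw [pres_map (fun τ => (List.range' 0 _).map fun e => pr φ e τ)]
  simp [he]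

theorem step {B : ℕ} (hB : 0 < B) (τ : ℕ) :
    (τ % B + 1 < B ∧ (τ + 1) / B = τ / B ∧ (τ + 1) % B = τ % B + 1) ∨
      (τ % B + 1 = B ∧ (τ + 1) / B = τ / B + 1 ∧ (τ + 1) % B = 0) := by
  have h1 := Nat.mod_lt τ hB
  have h2 := Nat.div_add_mod τ B
  by_cases h : τ % B + 1 < B
  · exact Or.inl ⟨h, (Nat.div_mod_unique hB).2 ⟨by omega, h⟩⟩
  · exact Or.inr ⟨by omega, (Nat.div_mod_unique hB).2 ⟨by rw [mul_add]; omega, hB⟩⟩

theorem dm {B i u : ℕ} (h : u < B) : (i * B + u) / B = i ∧ (i * B + u) % B = u :=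
  (Nat.div_mod_unique (by omega)).2 ⟨by rw [mul_comm]; omega, h⟩

theorem idx {N S i s : ℕ} (hi : i < N) (hs : s < S) : i * S + s < N * S :=
  calc i * S + s < (i + 1) * S := by rw [add_mul]; omega
    _ ≤ N * S := Nat.mul_le_mul_right _ hi

theorem vars_lt (φ : F) (s : ℕ) : ∀ v ∈ vars φ s, v < nv φ := by
  generalize hj : (s / cK φ - 1) % φ.length = j
  have : (φ.getD j (0, 0, 0)).1 + (φ.getD j (0, 0, 0)).2.1 + (φ.getD j (0, 0, 0)).2.2 < nv φ := by
    rcases lt_or_ge j φ.length with h | h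
    · rw [List.getD_eq_getElem _ _ h]
      exact Nat.lt_succ_of_le (List.single_le_sum (by simp) _
        (List.mem_map_of_mem (f := fun c : ℕ × ℕ × ℕ => c.1 + c.2.1 + c.2.2) (List.getElem_mem h)))
    · rw [List.getD_eq_default _ _ h]; simp [nv]
  simp only [vars, hj, List.mem_cons, List.not_mem_nil, or_false]
  omega

attribute [local irreducible] nv

theorem valid (φ : F) {Δ : ℕ} (h : 2 ≤ Δ) : Valid Δ (red φ) := by
  refine ⟨Nat.zero_le _, ?_, fun e he τ => ?_⟩
  · simp [red, bin, ofDigits_toBits, Function.comp_def]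
  · have : pres (red φ).2.2.2 e τ = true ∨ pres (red φ).2.2.2 e (τ + 1) = true := by
      rw [pres_red φ he, pres_red φ he]
      simp only [pr, av]
      rcases step (B := cB φ) (Nat.succ_pos _) τ with ⟨h1, h2, h3⟩ | ⟨h1, h2, h3⟩ <;> rw [h2, h3] <;>
        split_ifs <;> simp <;> omega
    rcases this with g | g
    · exact ⟨τ, le_rfl, by omega, g⟩
    · exact ⟨τ + 1, by omega, by omega, g⟩

theorem sound {φ : F} (h : Cover (red φ)) : NAE3 φ := by
  classical
  obtain ⟨pos, p0, p1, p2⟩ := h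
  have ht : bin (red φ).2.2.1 = (nv φ + 1) * cB φ - 2 := ofDigits_toBits _
  rw [ht] at p2
  set N := nv φ + 1 with hN
  set B := cB φ with hB
  set S := cS φ with hS
  set K := cK φ with hK
  have eB : B = 2 * S + 1 := rfl
  have eS : S = K + 2 * (φ.length * K) := rfl
  have eK : K = 3 * nv φ + 4 := rfl
  have eT : N * B = 2 * (N * S) + N := by rw [eB]; ring
  change pos 0 = 0 at p0
  change ∀ τ, _ ∨ ∃ e < N * S, _ at p1
  change ∀ v ≤ N * S, _ at p2
  have ent : ∀ e < N * S, ∃ τ, τ + 3 ≤ N * B ∧ pos τ = 0 ∧ pos (τ + 1) = e + 1 ∧ pr φ e τ = true := by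
    intro e he
    have ex : ∃ τ, τ ≤ N * B - 2 ∧ pos τ = e + 1 := p2 (e + 1) he
    obtain ⟨h1, h2⟩ := Nat.find_spec ex
    have h3 := fun m => @Nat.find_min _ _ ex m
    rcases hf : Nat.find ex with _ | τ <;> rw [hf] at h1 h2 h3
    · omega
    · have := h3 τ (by omega)
      rcases p1 τ with g | ⟨e', g1, g2, g | g⟩
      · exact (this ⟨by omega, by omega⟩).elim
      · obtain rfl : e' = e := by omega
        rw [pres_red φ g1, if_pos (show τ < N * B by omega)] at g2
        exact ⟨τ, by omega, g.1, g.2, g2⟩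
      · omega
  choose! en e1 e2 e3 e4 using ent
  let Z := range (N * B - 1) \ (range (N * S) ×ˢ range 2).image fun p => en p.1 + p.2
  have mZ : ∀ z, z ∈ Z ↔ z + 1 < N * B ∧ ∀ e < N * S, z ≠ en e ∧ z ≠ en e + 1 := by
    intro z
    simp only [Z, mem_sdiff, mem_range, mem_image, mem_product, not_exists, not_and, Prod.forall]
    exact ⟨fun ⟨a, b⟩ => ⟨by omega, fun e he => ⟨fun h => b e 0 ⟨he, by omega⟩ h.symm,
      fun h => b e 1 ⟨he, by omega⟩ h.symm⟩⟩, fun ⟨a, b⟩ => ⟨by omega, fun e c h => by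
        have := b e h.1; omega⟩⟩
  have cZ : Z.card = nv φ := by
    rw [card_sdiff_of_subset, card_image_of_injOn]
    · simp; omega
    · rintro ⟨a, b⟩ h ⟨c, d⟩ h' e
      simp only [coe_product, coe_range, Set.mem_prod, Set.mem_Iio] at h h' e
      have := e2 a h.1; have := e3 a h.1; have := e2 c h'.1; have := e3 c h'.1
      have : b = d := by
        by_contra
        rcases (by omega : en c + 1 = en a ∨ en a + 1 = en c) with g | g <;> simp_all
      have : en a = en c := by omega
      simp_all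
    · intro z hz
      simp only [mem_image, mem_product, mem_range] at hz ⊢
      obtain ⟨p, h, rfl⟩ := hz
      have := e1 _ h.1; omega
  have odd : ∀ a < N * S, ∀ c < N * S, en a < en c → (en c - en a) % 2 = 1 →
      ∃ z ∈ Z, en a ≤ z ∧ z < en c := by
    intro a ha c hc lt od
    by_contra! hz
    have : ∀ k, en a + 2 * k < en c → ∃ e < N * S, en e = en a + 2 * k := by
      intro k
      induction k with
      | zero => exact fun _ => ⟨a, ha, rfl⟩
      | succ k ih =>
        intro h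
        obtain ⟨e, he, g⟩ := ih (by omega)
        by_contra! hc'
        refine (hz (en a + 2 * (k + 1)) ((mZ _).2 ⟨by have := e1 c hc; omega, fun e' he' =>
          ⟨(hc' e' he').symm, fun g' => ?_⟩⟩) (by omega)).not_gt h
        have := e3 e he
        have := e2 e' he'
        rw [show en e' = en e + 1 by omega] at this
        omega
    obtain ⟨e, he, g⟩ := this ((en c - en a) / 2) (by omega)
    have := e3 e he
    have := e2 c hc
    rw [show en c = en e + 1 by omega] at this
    omega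
  have fam : ∀ b q, b < N → q ≤ 2 * φ.length → (b = 0 ∨ q = 0) → ∃ s, q * K ≤ s ∧ s < q * K + K ∧
      s / K = q ∧ b * S + s < N * S ∧ en (b * S + s) % B ≠ 0 ∧
        en (b * S + s) % B = gen φ b s (en (b * S + s) / B) := by
    intro b q hb hq hbq
    have hs : ∀ k < K, q * K + k < S := fun k hk => by
      have := Nat.mul_le_mul_right K hq
      rw [mul_assoc] at this; omega
    have hi : ∀ k < K, b * S + (q * K + k) < N * S := fun k hk => idx hb (hs k hk)
    obtain ⟨k, hk, hJ⟩ : ∃ k < K, en (b * S + (q * K + k)) ∉ (insert (N * B - 1) Z).image (· - 2) ∪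
        ((range N).image (· * B) ∪ (range N).image (· * B + 2 * S)) := by
      by_contra! hc
      have := card_le_card_of_injOn (s := range K) (fun k => en (b * S + (q * K + k)))
        (fun k hk => mem_coe.2 (hc k (by simpa using hk))) fun k hk k' hk' h => by
          have := e3 _ (hi k (by simpa using hk))
          have := e3 _ (hi k' (by simpa using hk'))
          simp_all
      have := this.trans ((card_union_le _ _).trans (add_le_add (card_image_le.trans
        (card_insert_le _ _)) ((card_union_le _ _).trans (add_le_add card_image_le card_image_le))))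
      simp only [card_range] at this
      omega
    have he := hi k hk
    refine ⟨q * K + k, by omega, by omega, (dm hk).1, he, ?_⟩
    have g1 := e1 _ he
    have g2 := e2 _ he
    have g3 := e3 _ he
    have g4 := e4 _ he
    generalize en (b * S + (q * K + k)) = τ at *
    simp only [mem_union, mem_image, mem_insert, mem_range, not_or, not_exists, not_and] at hJ
    have d1 := Nat.div_add_mod' τ B
    have d2 : τ / B < N := (Nat.div_lt_iff_lt_mul (by omega)).2 (by omega)
    have j1 := hJ.1 (τ + 2)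
    have j2 := hJ.2.1 _ d2
    have j3 := hJ.2.2 _ d2
    have g5 : pos (τ + 1 + 1) = 0 := by
      have : τ + 2 ∉ Z := fun h => j1 (Or.inr h) rfl
      rw [mZ] at this
      by_contra hc
      refine this ⟨by omega, fun e he => ⟨fun h => hc (by rw [← e2 e he, ← h]), fun h => ?_⟩⟩
      have := e2 e he
      rw [show en e = τ + 1 by omega] at this
      omega
    rcases p1 (τ + 1) with g | ⟨e', a1, a2, g | g⟩
    · omega
    · omega
    obtain rfl : e' = b * S + (q * K + k) := by omega
    rw [pres_red φ a1, if_pos (show τ + 1 < N * B by omega)] at a2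
    simp only [pr, av, ← hS, ← hB, ← hK, dm (hs k hk), decide_eq_true_eq] at g4 a2
    have : q = 0 → q * K + k < K := by rintro rfl; omega
    rcases step (B := B) (by omega) τ with ⟨h1, h2, h3⟩ | ⟨h1, h2, h3⟩
    · rw [h2, h3] at a2
      omega
    · omega
  have syn : ∀ i < N, ∃ e < N * S, en e / B = i ∧ en e % B % 2 = 0 ∧ en e % B < 2 * K := by
    intro i hi
    obtain ⟨s, a1, a2, -, a4, a5, a6⟩ := fam i 0 hi (by omega) (by omega)
    refine ⟨_, a4, ?_⟩
    rw [gen, if_pos (by omega)] at a6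
    split_ifs at a6 <;> omega
  choose! sy s1 s2 s3 s4 using syn
  have par : ∀ τ, τ % 2 = (τ / B + τ % B) % 2 := fun τ => by
    have := Nat.div_add_mod τ B
    rw [eB, add_mul, mul_assoc, ← eB] at this
    omega
  have mono : ∀ i j, i < j → j < N → en (sy i) < en (sy j) := fun i j h hj =>
    Nat.lt_of_div_lt_div (by rw [s2 i (by omega), s2 j hj]; exact h)
  have : ∀ i, i + 1 < N → ∃ z ∈ Z, en (sy i) ≤ z ∧ z < en (sy (i + 1)) := by
    intro i hi
    have := mono i (i + 1) (by omega) hi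
    refine odd _ (s1 _ (by omega)) _ (s1 _ hi) this ?_
    have := par (en (sy i)); have := par (en (sy (i + 1)))
    have := s2 i (by omega); have := s2 _ hi; have := s3 i (by omega); have := s3 _ hi
    omega
  choose! z z1 z2 z3 using this
  have cl : ∀ c ∈ φ, ∀ r < 2, ∃ e < N * S, (en e / B = c.1 ∨ en e / B = c.2.1 ∨ en e / B = c.2.2) ∧
      en e / B < nv φ ∧ 2 * K ≤ en e % B ∧ en e % B % 2 = 1 - r ∧
        (r = 0 ↔ en e % B < 2 * (K + φ.length * K)) := by
    intro c hc r hr
    obtain ⟨j, hj, rfl⟩ := List.getElem_of_mem hc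
    obtain ⟨s, a1, a2, a3, a4, a5, a6⟩ := fam 0 (r * φ.length + j + 1) (by omega)
      (by interval_cases r <;> omega) (by omega)
    have b1 := Nat.mul_le_mul_right K (show j + 1 ≤ φ.length by omega)
    simp only [add_mul, one_mul, mul_assoc] at a1 a2 b1
    rw [gen, if_neg (by omega)] at a6
    have b2 : en (0 * S + s) / B ∈ vars φ s := by
      by_contra h
      rw [if_neg h] at a6
      exact a5 a6
    refine ⟨_, a4, ?_, vars_lt _ _ _ b2, ?_⟩
    · simpa [vars, ← hK, a3, (dm hj).2, hj] using b2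
    · rw [if_pos b2, ← hK] at a6
      interval_cases r <;> split_ifs at a6 <;> omega
  refine ⟨fun v => decide (∃ e < N * S, en e / B = v ∧ 2 * K ≤ en e % B ∧ en e % B % 2 = 1 ∧
    en e % B < 2 * (K + φ.length * K)), fun c hc => ?_⟩
  obtain ⟨a, a1, a2, -, a4, a5, a6⟩ := cl c hc 0 (by omega)
  obtain ⟨b, b1, b2, b3, b4, b5, b6⟩ := cl c hc 1 (by omega)
  have t1 : ∃ e < N * S, en e / B = en a / B ∧ 2 * K ≤ en e % B ∧ en e % B % 2 = 1 ∧
    en e % B < 2 * (K + φ.length * K) := ⟨a, a1, rfl, a4, a5, by omega⟩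
  have t2 : ¬∃ e < N * S, en e / B = en b / B ∧ 2 * K ≤ en e % B ∧ en e % B % 2 = 1 ∧
      en e % B < 2 * (K + φ.length * K) := by
    rintro ⟨e, c1, c2, c3, c4, c5⟩
    obtain ⟨v, hv⟩ : ∃ v, en b / B = v := ⟨_, rfl⟩
    rw [hv] at c2 b3
    have hv' : v < N := by omega
    have d1 := Nat.div_add_mod (en e) B
    have d2 := Nat.div_add_mod (en b) B
    have d3 := Nat.div_add_mod (en (sy v)) B
    have d4 := par (en e)
    have d5 := par (en b)
    have d6 := par (en (sy v))
    have := s3 v hv'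
    have := s4 v hv'
    rw [c2] at d1 d4
    rw [hv] at d2 d5
    rw [s2 v hv'] at d3 d6
    clear a2 b2 a6 t1
    obtain ⟨x, x1, x2, x3⟩ := odd _ (s1 v hv') _ c1 (by omega) (by omega)
    obtain ⟨y, y1, y2, y3⟩ := odd _ c1 _ b1 (by omega) (by omega)
    have l : en b < en (sy (v + 1)) :=
      Nat.lt_of_div_lt_div (by rw [hv, s2 _ (by omega)]; exact Nat.lt_succ_self _)
    have m' : ∀ i j, i ≤ j → j < N → en (sy i) ≤ en (sy j) := fun i j h hj => by
      rcases h.eq_or_lt with rfl | h
      · rfl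
      · exact (mono i j h hj).le
    let f : ℕ → ℕ := fun i => if i = v then x else z i
    have hf : ∀ i < nv φ, f i ∈ Z ∧ en (sy i) ≤ f i ∧ f i < en (sy (i + 1)) ∧ f i ≠ y := by
      intro i hi
      simp only [f]
      split_ifs with h
      · exact ⟨x1, h ▸ x2, h ▸ by omega, by omega⟩
      · have := z2 i (by omega)
        have := z3 i (by omega)
        refine ⟨z1 i (by omega), by omega, by omega, ?_⟩
        rcases lt_or_gt_of_ne h with g | g
        · have := m' (i + 1) v g hv'
          omega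
        · have := m' (v + 1) i g (by omega)
          omega
    have := card_le_card_of_injOn (s := range (nv φ)) (t := Z.erase y) f
      (fun i hi => by have := hf i (by simpa using hi); simp [this]) fun i hi j hj h => by
        simp only [coe_range, Set.mem_Iio] at hi hj
        obtain ⟨-, u1, u2, -⟩ := hf i hi
        obtain ⟨-, u3, u4, -⟩ := hf j hj
        rcases lt_trichotomy i j with g | g | g
        · exact absurd (m' (i + 1) j g (by omega)) (by omega)
        · exact g
        · exact absurd (m' (j + 1) i g (by omega)) (by omega)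
    rw [card_erase_of_mem y1, card_range] at this
    omega
  simp only [decide_eq_decide]
  rintro ⟨g1, g2⟩
  rcases a2 with a2 | a2 | a2 <;> rcases b2 with b2 | b2 | b2 <;> rw [a2] at t1 <;> rw [b2] at t2 <;>
    first | exact t2 t1 | exact t2 (g1.1 t1) | exact t2 (g2.1 t1) | exact t2 (g1.2 t1) |
      exact t2 (g2.2 t1) | exact t2 (g2.1 (g1.1 t1)) | exact t2 (g1.2 (g2.2 t1))

theorem complete {φ : F} (h : NAE3 φ) : Cover (red φ) := by
  obtain ⟨σ, hσ⟩ := h
  set N := nv φ + 1 with hN
  set B := cB φ with hB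
  set S := cS φ with hS
  set K := cK φ with hK
  have eB : B = 2 * S + 1 := rfl
  have eS : S = K + 2 * (φ.length * K) := rfl
  have eK : K = 3 * nv φ + 4 := rfl
  have : ∀ s, K ≤ s → s < S → ∃ v ∈ vars φ s, (σ v = true ↔ s < K + φ.length * K) := by
    intro s h1 h2
    have hm : 0 < φ.length := by
      by_contra h
      rw [show φ.length = 0 by omega] at eS
      omega
    have := hσ _ (List.getElem_mem (Nat.mod_lt (s / K - 1) hm))
    simp only [vars, ← hK, List.getD_eq_getElem _ _ (Nat.mod_lt (s / K - 1) hm)]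
    grind
  choose! vr v1 v2 using this
  let π : ℕ → ℕ → ℕ := fun s i => if s < K then i else Equiv.swap 0 (vr s) i
  let w : ℕ → ℕ := fun i => if σ i = true ∧ i < nv φ then 2 * K else 2 * S
  have hw : ∀ i, (σ i = true ∧ i < nv φ ∧ w i = 2 * K) ∨ (¬(σ i = true ∧ i < nv φ) ∧ w i = 2 * S) :=
    fun i => by simp only [w]; grind
  have hπ : ∀ s < S, ∀ i < N, π s i < N ∧ π s (π s i) = i := by
    intro s hs i hi
    simp only [π]
    split_ifs with h
    · exact ⟨hi, rfl⟩
    · have := vars_lt _ _ _ (v1 s (by omega) hs)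
      exact ⟨by rw [Equiv.swap_apply_def]; split_ifs <;> omega, by simp⟩
  have key : ∀ s < S, ∀ i u, (u = 2 * s + (if w i ≤ 2 * s then 1 else 0) ∨
      u = 2 * s + (if w i ≤ 2 * s then 1 else 0) + 1) → av φ (π s i) s i u = true := by
    intro s hs i u hu
    have := hw i
    simp only [av, gen, π, ← hK, decide_eq_true_eq]
    by_cases h : s < K
    · simp only [h, if_true]
      split_ifs at hu <;> omega
    by_cases h0 : Equiv.swap 0 (vr s) i = 0
    · obtain rfl : i = vr s := by simpa using (Equiv.swap_apply_eq_iff.1 h0)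
      have := v2 s (by omega) hs
      have := vars_lt _ _ _ (v1 s (by omega) hs)
      simp only [h, v1 s (by omega) hs, if_true, if_false]
      split_ifs at hu ⊢ <;> grind
    · exact Or.inr (Or.inl ⟨by simpa [h] using h0, by omega⟩)
  let pos : ℕ → ℕ := fun τ => if τ / B < N ∧ (τ % B ≤ w (τ / B) ↔ τ % B % 2 = 1) then
    π ((τ % B - 1) / 2) (τ / B) * S + (τ % B - 1) / 2 + 1 else 0
  have mv : ∀ τ s, s < S → τ / B < N → (τ % B = 2 * s + (if w (τ / B) ≤ 2 * s then 1 else 0) ∨
      τ % B = 2 * s + (if w (τ / B) ≤ 2 * s then 1 else 0) + 1) → π s (τ / B) * S + s < N * S ∧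
        pres (red φ).2.2.2 (π s (τ / B) * S + s) τ = true := by
    intro τ s hs hi hu
    have := idx (hπ s hs _ hi).1 hs
    refine ⟨this, ?_⟩
    rw [pres_red φ this]
    split_ifs
    · simp only [pr, ← hS, ← hB, dm hs]
      exact key s hs _ _ hu
    · rfl
  refine ⟨pos, by simp [pos, red], fun τ => ?_, fun v hv => ?_⟩
  · have := hw (τ / B)
    have := Nat.mod_lt τ (show B > 0 by omega)
    by_cases h1 : τ / B < N ∧ (τ % B ≤ w (τ / B) ↔ τ % B % 2 = 1)
    · obtain ⟨a, b⟩ := mv τ ((τ % B - 1) / 2) (by omega) h1.1 (by split_ifs <;> omega)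
      refine Or.inr ⟨_, a, b, Or.inr ⟨if_pos h1, if_neg ?_⟩⟩
      rcases step (B := B) (by omega) τ with ⟨-, h2, h3⟩ | ⟨-, h2, h3⟩ <;> rw [h2, h3] <;> omega
    by_cases h2 : (τ + 1) / B < N ∧ ((τ + 1) % B ≤ w ((τ + 1) / B) ↔ (τ + 1) % B % 2 = 1)
    · have e : pos (τ + 1) = _ := if_pos h2
      rcases step (B := B) (by omega) τ with ⟨-, h3, h4⟩ | ⟨-, h3, h4⟩
      · rw [h3, h4] at h2
        obtain ⟨a, b⟩ := mv τ (τ % B / 2) (by omega) h2.1 (by split_ifs <;> omega)
        exact Or.inr ⟨_, a, b, Or.inl ⟨if_neg h1, e.trans (by rw [h3, h4]; rfl)⟩⟩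
      · rw [h4] at h2
        omega
    · exact Or.inl ((if_neg h2).trans (if_neg h1).symm)
  · rw [show bin (red φ).2.2.1 = N * B - 2 from ofDigits_toBits _]
    rcases v with _ | e
    · exact ⟨0, by omega, by simp [pos]⟩
    change e + 1 ≤ N * S at hv
    have hs : e % S < S := Nat.mod_lt _ (by omega)
    obtain ⟨a, b⟩ := hπ _ hs (e / S) ((Nat.div_lt_iff_lt_mul (by omega)).2 hv)
    have dd := Nat.div_add_mod' e S
    generalize e % S = s at *
    generalize hi : π s (e / S) = i at *
    have := hw i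
    obtain ⟨u, hu⟩ : ∃ u, u = 2 * s + (if w i ≤ 2 * s then 1 else 0) + 1 := ⟨_, rfl⟩
    have u1 : u < B := by split_ifs at hu <;> omega
    have u2 : (u - 1) / 2 = s := by split_ifs at hu <;> omega
    refine ⟨i * B + u, ?_, ?_⟩
    · have := Nat.mul_le_mul_right B (show i + 1 ≤ N from a)
      by_cases c : i = nv φ
      · rw [add_mul] at this
        split_ifs at hu <;> omega
      · have := Nat.mul_le_mul_right B (show i + 2 ≤ N by omega)
        rw [add_mul] at this
        omega
    · simp only [pos, dm u1, u2, b]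
      rw [if_pos ⟨a, by split_ifs at hu <;> omega⟩, dd]

theorem result (Δ : ℕ) (hΔ : 2 ≤ Δ) (L : List Bool → Prop) (hL : InNP L) :
    ∃ f : List Bool → Inst, PolyTime id bits f ∧ ∀ x, Valid Δ (f x) ∧ (L x ↔ Cover (f x)) := by
  obtain ⟨f, hf, e⟩ := hard_NAE3.hardFor.red (Val' := Valid Δ) (Y := Cover) red pt_red
    (fun φ _ => ⟨valid φ hΔ, complete, sound⟩) L hL
  exact ⟨f, hf.polyTime_raw, e⟩

end Pool.Agent.Results.MP_21485e_lc.Hard
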